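import Pool.Agent.XPS.All

set_option autoImplicit false

open Finset MeasureTheory

namespace Pool.Agent.Results.MP_b22a07_co.AsymptoticAllScales

/-- `P` is a set of `N` points of the unit sphere `S^k` of `ℝ^{k+1}`. -/
def IsConfig (N k : ℕ) (P : Finset (EuclideanSpace ℝ (Fin (k + 1)))) : Prop :=
  P.card = N ∧ ∀ p ∈ P, ‖p‖ = 1

/-- `L(N,k,P)`: the sum of the Euclidean distances over the unordered pairs of points of `P`
(half of the sum over ordered pairs). -/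
noncomputable def pairSum {k : ℕ} (P : Finset (EuclideanSpace ℝ (Fin (k + 1)))) : ℝ :=
  (∑ p ∈ P, ∑ q ∈ P, dist p q) / 2

/-- The surface measure `σ` on the sphere `S^k`. -/
noncomputable def surf (k : ℕ) : Measure (Metric.sphere (0 : EuclideanSpace ℝ (Fin (k + 1))) 1) :=
  (volume : Measure (EuclideanSpace ℝ (Fin (k + 1)))).toSphere

/-- The point `x_0 = (1,0,...,0)`. -/
noncomputable def x0 (k : ℕ) : EuclideanSpace ℝ (Fin (k + 1)) := EuclideanSpace.single 0 1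

/-- `c_0(k) = (1/(2 σ(S^k))) ∫_{S^k} |x_0 - x| dσ(x)`. -/
noncomputable def c0 (k : ℕ) : ℝ :=
  1 / (2 * (surf k).real Set.univ)
    * ∫ x : Metric.sphere (0 : EuclideanSpace ℝ (Fin (k + 1))) 1,
        dist (x0 k) (x : EuclideanSpace ℝ (Fin (k + 1))) ∂(surf k)

/-- `κ_s = binom(4s+2, 2s+1) / (4^(2s+1) √2)`. -/
noncomputable def kappa (s : ℕ) : ℝ := (Nat.choose (4 * s + 2) (2 * s + 1) : ℝ) / (4 ^ (2 * s + 1) * √2)

private theorem dist_eq_ff (k : ℕ) (x y : EuclideanSpace ℝ (Fin (k + 1))) (hx : ‖x‖ = 1) (hy : ‖y‖ = 1) :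
    dist x y = √2 * Pool.Agent.XPM.ff (inner ℝ x y) := by
  unfold Pool.Agent.XPM.ff
  rw [← Real.sqrt_mul (by norm_num : (0 : ℝ) ≤ 2), dist_eq_norm]
  have h := norm_sub_sq_real x y
  rw [hx, hy] at h
  rw [← Real.sqrt_sq (norm_nonneg (x - y)), h]
  congr 1
  ring

private theorem kappa_eq (s : ℕ) : kappa s = Pool.Agent.XPS.rr (2 * s + 1) / √2 := by
  unfold kappa Pool.Agent.XPS.rr
  rw [Nat.centralBinom_eq_two_mul_choose, show 2 * (2 * s + 1) = 4 * s + 2 by ring, div_div]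

private theorem c0_eq (k : ℕ) : c0 k = Pool.Agent.XPS.cf (k + 1) / √2 := by
  have h := Pool.Agent.XPS.all_SF k
  rw [← h]
  unfold c0 surf x0
  rw [one_div, mul_comm, ← div_eq_mul_inv]

private theorem half_eq (S : ℝ) : √2 * S / 2 = S / √2 := by
  have hs2 : 0 < √2 := by positivity
  have hss : √2 * √2 = (2 : ℝ) := Real.mul_self_sqrt (by norm_num)
  rw [div_eq_div_iff (by norm_num) hs2.ne']
  linear_combination S * hss

private theorem div_le_of (x : ℝ) (hx : 0 ≤ x) : x / √2 ≤ x := by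
  apply div_le_self hx
  rw [Real.one_le_sqrt]
  norm_num

/-- **Theorem.** For every `s ≥ 1`: (1) with a constant `C` depending on `s` only, every set of `N` points
of `S^k` has distance sum at most `c_0(k) N^2 - κ_s N + C N^2/(k+1)^(s+1)`; (2) for every `ε > 0` there is a
constant `C` such that for all `N` and `k ≥ 1` some set of `N` points of `S^k` has distance sum at least
`c_0(k) N^2 - (κ_s + ε) N - C ((k+1)^s + N^2/(k+1)^(s+1))`. So the maximum is `c_0(k) N^2 - κ_s N + o(N)`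
when `N/k^s → ∞` and `N/k^(s+1) → 0`. -/
theorem result : ∀ s : ℕ, 1 ≤ s →
    (∃ C : ℝ, 0 < C ∧ ∀ (N k : ℕ) (P : Finset (EuclideanSpace ℝ (Fin (k + 1)))),
      IsConfig N k P →
      pairSum P ≤ c0 k * (N : ℝ) ^ 2 - kappa s * N + C * (N : ℝ) ^ 2 / ((k : ℝ) + 1) ^ (s + 1)) ∧
    ∀ ε : ℝ, 0 < ε → ∃ C : ℝ, 0 < C ∧ ∀ N k : ℕ, 1 ≤ k →
      ∃ P : Finset (EuclideanSpace ℝ (Fin (k + 1))), IsConfig N k P ∧
        c0 k * (N : ℝ) ^ 2 - (kappa s + ε) * N
            - C * (((k : ℝ) + 1) ^ s + (N : ℝ) ^ 2 / ((k : ℝ) + 1) ^ (s + 1)) ≤ pairSum P := by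
  have hs2 : 0 < √2 := by positivity
  intro s hs
  constructor
  · obtain ⟨C, hC, hub⟩ := Pool.Agent.XPS.all_UX s
    refine ⟨C, hC, ?_⟩
    rintro N k P ⟨hP1, hP2⟩
    let e : Fin N ≃ P := (P.equivFinOfCardEq hP1).symm
    let x : Fin N → EuclideanSpace ℝ (Fin (k + 1)) := fun i => (e i : EuclideanSpace ℝ (Fin (k + 1)))
    have hx : ∀ i, ‖x i‖ = 1 := fun i => hP2 _ (e i).2
    have hsum : ∀ F : EuclideanSpace ℝ (Fin (k + 1)) → ℝ, ∑ p ∈ P, F p = ∑ i, F (x i) := by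
      intro F
      rw [← Finset.sum_coe_sort P F]
      exact (Equiv.sum_comp e (fun p => F (p : EuclideanSpace ℝ (Fin (k + 1))))).symm
    have hub' := hub (k + 1) N x (by omega) hx
    have hval : ∑ p ∈ P, ∑ q ∈ P, dist p q
        = √2 * ∑ i, ∑ j, Pool.Agent.XPM.ff (inner ℝ (x i) (x j)) := by
      rw [hsum, Finset.mul_sum]
      refine Finset.sum_congr rfl fun i _ => ?_
      rw [hsum, Finset.mul_sum]
      refine Finset.sum_congr rfl fun j _ => ?_
      exact dist_eq_ff k _ _ (hx i) (hx j)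
    unfold pairSum
    rw [hval, kappa_eq, c0_eq, half_eq]
    set S : ℝ := ∑ i, ∑ j, Pool.Agent.XPM.ff (inner ℝ (x i) (x j)) with hS
    set Q : ℝ := C * (N : ℝ) ^ 2 / ((k : ℝ) + 1) ^ (s + 1) with hQ
    have hQ0 : 0 ≤ Q := by positivity
    have hub2 : S ≤ (N : ℝ) ^ 2 * Pool.Agent.XPS.cf (k + 1) - Pool.Agent.XPS.rr (2 * s + 1) * N + Q := by
      have := hub'
      push_cast at this
      exact this
    have h4 : S / √2 ≤ ((N : ℝ) ^ 2 * Pool.Agent.XPS.cf (k + 1)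
        - Pool.Agent.XPS.rr (2 * s + 1) * N + Q) / √2 := div_le_div_of_nonneg_right hub2 hs2.le
    have h5 : ((N : ℝ) ^ 2 * Pool.Agent.XPS.cf (k + 1)
        - Pool.Agent.XPS.rr (2 * s + 1) * N + Q) / √2
        = Pool.Agent.XPS.cf (k + 1) / √2 * (N : ℝ) ^ 2
          - Pool.Agent.XPS.rr (2 * s + 1) / √2 * N + Q / √2 := by ring
    rw [h5] at h4
    have h6 := div_le_of Q hQ0
    linarith
  · intro ε hε
    obtain ⟨C, hC, hlb⟩ := Pool.Agent.XPS.all_LX s ε hs hε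
    refine ⟨C, hC, fun N k hk => ?_⟩
    obtain ⟨X, hinj, hX, hsum⟩ := hlb (k + 1) N (by omega)
    have hsumX : ∀ F : EuclideanSpace ℝ (Fin (k + 1)) → ℝ,
        ∑ p ∈ Finset.univ.image X, F p = ∑ i, F (X i) := by
      intro F
      exact Finset.sum_image (fun a _ b _ h => hinj h)
    have hval : ∑ p ∈ Finset.univ.image X, ∑ q ∈ Finset.univ.image X, dist p q
        = √2 * ∑ i, ∑ j, Pool.Agent.XPM.ff (inner ℝ (X i) (X j)) := by
      rw [hsumX, Finset.mul_sum]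
      refine Finset.sum_congr rfl fun i _ => ?_
      rw [hsumX, Finset.mul_sum]
      refine Finset.sum_congr rfl fun j _ => ?_
      exact dist_eq_ff k _ _ (hX i) (hX j)
    refine ⟨Finset.univ.image X, ⟨?_, ?_⟩, ?_⟩
    · rw [Finset.card_image_of_injective _ hinj, Finset.card_univ, Fintype.card_fin]
    · intro p hp
      obtain ⟨i, _, rfl⟩ := Finset.mem_image.1 hp
      exact hX i
    · unfold pairSum
      rw [hval, kappa_eq, c0_eq, half_eq]
      set S : ℝ := ∑ i, ∑ j, Pool.Agent.XPM.ff (inner ℝ (X i) (X j)) with hS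
      set Q : ℝ := C * (((k : ℝ) + 1) ^ s + (N : ℝ) ^ 2 / ((k : ℝ) + 1) ^ (s + 1)) with hQ
      have hQ0 : 0 ≤ Q := by positivity
      have hlb2 : (N : ℝ) ^ 2 * Pool.Agent.XPS.cf (k + 1)
          - (Pool.Agent.XPS.rr (2 * s + 1) + ε) * N - Q ≤ S := by
        have := hsum
        push_cast at this
        exact this
      have h4 : ((N : ℝ) ^ 2 * Pool.Agent.XPS.cf (k + 1)
          - (Pool.Agent.XPS.rr (2 * s + 1) + ε) * N - Q) / √2 ≤ S / √2 :=
        div_le_div_of_nonneg_right hlb2 hs2.le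
      have h5 : ((N : ℝ) ^ 2 * Pool.Agent.XPS.cf (k + 1)
          - (Pool.Agent.XPS.rr (2 * s + 1) + ε) * N - Q) / √2
          = Pool.Agent.XPS.cf (k + 1) / √2 * (N : ℝ) ^ 2
            - Pool.Agent.XPS.rr (2 * s + 1) / √2 * N - ε * N / √2 - Q / √2 := by ring
      rw [h5] at h4
      have h6 := div_le_of Q hQ0
      have h7 := div_le_of (ε * N) (by positivity)
      have h8 : (Pool.Agent.XPS.rr (2 * s + 1) / √2 + ε) * (N : ℝ)
          = Pool.Agent.XPS.rr (2 * s + 1) / √2 * N + ε * N := by ring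
      rw [h8]
      linarith

end Pool.Agent.Results.MP_b22a07_co.AsymptoticAllScales
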