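import Pool.Agent.XPL.All3

set_option autoImplicit false

open Finset

namespace Pool.Agent.Results.MP_b22a07_co.EquiangularDoubles

/-- `P` is a set of `N` points of the unit sphere `S^k` of `ℝ^{k+1}`. -/
def IsConfig (N k : ℕ) (P : Finset (EuclideanSpace ℝ (Fin (k + 1)))) : Prop :=
  P.card = N ∧ ∀ p ∈ P, ‖p‖ = 1

/-- `L(N,k,P)`: the sum of the Euclidean distances over the unordered pairs of points of `P`
(half of the sum over ordered pairs). -/
noncomputable def pairSum {k : ℕ} (P : Finset (EuclideanSpace ℝ (Fin (k + 1)))) : ℝ :=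
  (∑ p ∈ P, ∑ q ∈ P, dist p q) / 2

/-- The square of the Welch bound for `N/2` lines of `ℝ^{k+1}`. -/
noncomputable def welch (N k : ℕ) : ℝ :=
  ((N : ℝ) - 2 * ((k : ℝ) + 1)) / (((k : ℝ) + 1) * ((N : ℝ) - 2))

/-- `P` is antipodal and any two points `x, y` of `P` with `y ≠ x, -x` have inner product `± s`,
`s^2 = welch N k` (for `N` points: the lines through the points of `P` are `N/2` equiangular lines
of `ℝ^{k+1}` which meet the Welch bound). -/
def IsEquiangularDouble (N k : ℕ) (P : Finset (EuclideanSpace ℝ (Fin (k + 1)))) : Prop :=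
  (∀ x ∈ P, -x ∈ P) ∧ ∀ x ∈ P, ∀ y ∈ P, x ≠ y → x ≠ -y → (inner ℝ x y : ℝ) ^ 2 = welch N k

/-- The sum of the distances of an equiangular double of `N` points. -/
noncomputable def value (N k : ℕ) : ℝ :=
  (N : ℝ) + (N : ℝ) * ((N : ℝ) - 2) / 4 *
    (√(2 - 2 * √(welch N k)) + √(2 + 2 * √(welch N k)))

/-- `A` is the vertex set of a regular simplex inscribed in `S^k`. -/
def IsRegularSimplex {k : ℕ} (A : Finset (EuclideanSpace ℝ (Fin (k + 1)))) : Prop :=
  A.card = k + 2 ∧ (∀ a ∈ A, ‖a‖ = 1) ∧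
    ∀ a ∈ A, ∀ b ∈ A, a ≠ b → (inner ℝ a b : ℝ) = -(1 / ((k : ℝ) + 1))

/-- **Theorem.** (1) Let `N` be even, `2 (k+1) < N ≤ (2 + 10^(-7)) (k+1)`, and suppose that
`ℝ^{k+1}` contains `N/2` equiangular lines which meet the Welch bound. Then `L(N,k) = value N k`,
and the `N`-point sets which attain it are exactly the unions of antipodal pairs on such systems
of lines. (2) This applies to `N = 2k+4` for every `k` with `k + 1 ≥ 2 * 10^7`, where the
maximisers are the sets `A ∪ -A`, `A` the vertex set of a regular simplex inscribed in `S^k`. -/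
theorem result :
    (∀ N k : ℕ, Even N → 2 * (k + 1) < N → 10 ^ 7 * N ≤ (2 * 10 ^ 7 + 1) * (k + 1) →
      (∃ Q, IsConfig N k Q ∧ IsEquiangularDouble N k Q) →
      IsGreatest {L : ℝ | ∃ P, IsConfig N k P ∧ pairSum P = L} (value N k) ∧
      ∀ P, IsConfig N k P → (pairSum P = value N k ↔ IsEquiangularDouble N k P)) ∧
    (∀ k : ℕ, 2 * 10 ^ 7 ≤ k + 1 →
      IsGreatest {L : ℝ | ∃ P, IsConfig (2 * k + 4) k P ∧ pairSum P = L} (value (2 * k + 4) k) ∧
      ∀ P, IsConfig (2 * k + 4) k P → (pairSum P = value (2 * k + 4) k ↔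
        ∃ A, IsRegularSimplex A ∧ P = A ∪ A.image (fun x => -x))) := by
  have hs2 : 0 < √2 := by positivity
  have hss : √2 * √2 = (2 : ℝ) := Real.mul_self_sqrt (by norm_num)
  have hhval : ∀ s : ℝ, √2 * Pool.Agent.XPL.hh s = √(2 - 2 * s) + √(2 + 2 * s) := by
    intro s
    unfold Pool.Agent.XPL.hh
    rw [mul_add, ← Real.sqrt_mul (by norm_num : (0 : ℝ) ≤ 2),
      ← Real.sqrt_mul (by norm_num : (0 : ℝ) ≤ 2)]
    congr 2 <;> ring
  constructor
  · intro N k hN h1 h2 hQ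
    obtain ⟨M, hM⟩ := hN
    obtain ⟨c, hc⟩ : ∃ c, N = 2 * (k + 1) + 2 * c := ⟨M - (k + 1), by omega⟩
    have hc1 : 1 ≤ c := by omega
    have hc2 : 2 * 10 ^ 7 * c ≤ k + 1 := by omega
    have hNR : (N : ℝ) = 2 * ((k : ℝ) + 1) + 2 * c := by rw [hc]; push_cast; ring
    have hcR : (1 : ℝ) ≤ c := by exact_mod_cast hc1
    have hk0 : (0 : ℝ) < (k : ℝ) + 1 := by positivity
    have hwelch : welch N k = (c : ℝ) / (((k : ℝ) + 1) * (((k : ℝ) + 1) + c - 1)) := by
      unfold welch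
      rw [hNR]
      have e1 : 2 * ((k : ℝ) + 1) + 2 * (c : ℝ) - 2 * ((k : ℝ) + 1) = 2 * c := by ring
      have e2 : ((k : ℝ) + 1) * (2 * ((k : ℝ) + 1) + 2 * (c : ℝ) - 2)
          = 2 * (((k : ℝ) + 1) * (((k : ℝ) + 1) + c - 1)) := by ring
      rw [e1, e2, mul_div_mul_left _ _ (by norm_num : (2 : ℝ) ≠ 0)]
    have hwpos : 0 < welch N k := by
      rw [hwelch]
      have : 0 < ((k : ℝ) + 1) + c - 1 := by linarith
      positivity
    set s := √(welch N k) with hs
    have hs0 : 0 < s := Real.sqrt_pos.2 hwpos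
    have hs2' : s ^ 2 = welch N k := Real.sq_sqrt hwpos.le
    obtain ⟨Q, ⟨hQ1, hQ2⟩, hQn, hQs⟩ := hQ
    have hmain := Pool.Agent.XPL.Fin4_equi (d := k + 1) (c := c) (s := s)
      Pool.Agent.XPL.all_C7 Pool.Agent.XPL.all_C9 Pool.Agent.XPL.all_F5 Pool.Agent.XPL.all_CE
      (by omega) hc1 hc2 hs0 (by rw [hs2', hwelch]; push_cast; ring) Q
      (by rw [hQ1, hc]) hQ2 hQn (fun x hx y hy hxy hxy' => by
        rw [hQs x hx y hy hxy hxy', hs2'])
    have hval : √2 * (√2 * (2 * ((k + 1 : ℕ) : ℝ) + 2 * c)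
      + (2 * ((k + 1 : ℕ) : ℝ) + 2 * c) * (2 * ((k + 1 : ℕ) : ℝ) + 2 * c - 2) *
        Pool.Agent.XPL.hh s / 2) = 2 * value N k := by
      unfold value
      rw [← hs, ← hhval s]
      push_cast
      rw [← hNR]
      linear_combination (N : ℝ) * hss
    rw [hval] at hmain
    obtain ⟨hQv, hall⟩ := hmain
    refine ⟨⟨⟨Q, ⟨hQ1, hQ2⟩, ?_⟩, ?_⟩, ?_⟩
    · unfold pairSum
      rw [hQv]; ring
    · rintro L ⟨P, ⟨hP1, hP2⟩, rfl⟩
      have := (hall P (by rw [hP1, hc]) hP2).1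
      unfold pairSum
      linarith
    · rintro P ⟨hP1, hP2⟩
      have h5 := (hall P (by rw [hP1, hc]) hP2).2
      have h6 : pairSum P = value N k ↔ ∑ x ∈ P, ∑ y ∈ P, dist x y = 2 * value N k := by
        unfold pairSum
        constructor
        · intro h; linarith
        · intro h; rw [h]; ring
      rw [h6, h5, hs2']
      rfl
  · intro k hk
    have hkR : (0 : ℝ) < (k : ℝ) + 1 := by positivity
    have hwelch : welch (2 * k + 4) k = (1 / ((k : ℝ) + 1)) ^ 2 := by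
      unfold welch
      push_cast
      have e1 : 2 * (k : ℝ) + 4 - 2 * ((k : ℝ) + 1) = 2 := by ring
      have e2 : ((k : ℝ) + 1) * (2 * (k : ℝ) + 4 - 2) = 2 * ((k : ℝ) + 1) ^ 2 := by ring
      rw [e1, e2, div_pow, one_pow]
      field_simp
    have hs : √(welch (2 * k + 4) k) = 1 / ((k : ℝ) + 1) := by
      rw [hwelch]
      exact Real.sqrt_sq (by positivity)
    have hval : √2 * Pool.Agent.XPL.VV (k + 1) = 2 * value (2 * k + 4) k := by
      unfold value Pool.Agent.XPL.VV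
      rw [hs, ← hhval]
      push_cast
      linear_combination (2 * (k : ℝ) + 4) * hss
    obtain ⟨⟨P0, hP01, hP02, hP03⟩, hall⟩ := Pool.Agent.XPL.Fin4_simplex (d := k + 1)
      Pool.Agent.XPL.all_C7 Pool.Agent.XPL.all_C9 Pool.Agent.XPL.all_F5 Pool.Agent.XPL.all_CE
      Pool.Agent.XPL.thm_A4 Pool.Agent.XPL.thm_Cv Pool.Agent.XPL.thm_Sx hk
    rw [hval] at hP03 hall
    refine ⟨⟨⟨P0, ⟨by omega, hP02⟩, ?_⟩, ?_⟩, ?_⟩
    · unfold pairSum
      rw [hP03]; ring
    · rintro L ⟨P, ⟨hP1, hP2⟩, rfl⟩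
      have := (hall P (by omega) hP2).1
      unfold pairSum
      linarith
    · rintro P ⟨hP1, hP2⟩
      have h5 := (hall P (by omega) hP2).2
      have h6 : pairSum P = value (2 * k + 4) k ↔
          ∑ x ∈ P, ∑ y ∈ P, dist x y = 2 * value (2 * k + 4) k := by
        unfold pairSum
        constructor
        · intro h; linarith
        · intro h; rw [h]; ring
      rw [h6, h5]
      constructor
      · rintro ⟨A, hA, hA1, hA2, hA3⟩
        refine ⟨A, ⟨by omega, hA1, fun a ha b hb hab => ?_⟩, hA3⟩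
        have := hA2 a ha b hb hab
        push_cast at this
        exact this
      · rintro ⟨A, ⟨hA, hA1, hA2⟩, hA3⟩
        refine ⟨A, by omega, hA1, fun a ha b hb hab => ?_, hA3⟩
        have := hA2 a ha b hb hab
        push_cast
        exact this

end Pool.Agent.Results.MP_b22a07_co.EquiangularDoubles
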