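import Pool.Agent.XPL.All3

set_option autoImplicit false

open Finset

namespace Pool.Agent.Results.MP_b22a07_co.EvenAntipodal

/-- `P` is a set of `N` points of the unit sphere `S^k` of `ℝ^{k+1}`. -/
def IsConfig (N k : ℕ) (P : Finset (EuclideanSpace ℝ (Fin (k + 1)))) : Prop :=
  P.card = N ∧ ∀ p ∈ P, ‖p‖ = 1

/-- `L(N,k,P)`: the sum of the Euclidean distances over the unordered pairs of points of `P`
(half of the sum over ordered pairs). -/
noncomputable def pairSum {k : ℕ} (P : Finset (EuclideanSpace ℝ (Fin (k + 1)))) : ℝ :=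
  (∑ p ∈ P, ∑ q ∈ P, dist p q) / 2

/-- `P` attains the maximum `L(N,k)`. -/
def IsOptimal (N k : ℕ) (P : Finset (EuclideanSpace ℝ (Fin (k + 1)))) : Prop :=
  IsConfig N k P ∧ ∀ Q : Finset (EuclideanSpace ℝ (Fin (k + 1))), IsConfig N k Q →
    pairSum Q ≤ pairSum P

/-- The approximate value of `L(N,k)`. -/
noncomputable def bound (N k : ℕ) : ℝ :=
  (N : ℝ) + √2 / 2 * ((N : ℝ) ^ 2 - 7 / 4 * N - (N : ℝ) ^ 2 / (8 * ((k : ℝ) + 1)))

/-- **Theorem.** For all `k` and all even `N` with `2 (k+1) ≤ N ≤ (2 + 10^(-7)) (k+1)` the maximum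
`L(N,k)` is attained; every `N`-point set which attains it is antipodal (`P = -P`), and its sum of
distances lies between `bound N k - ((N - 2(k+1))/(k+1))^2` and `bound N k`. -/
theorem result :
    ∀ N k : ℕ, Even N → 2 * (k + 1) ≤ N → 10 ^ 7 * N ≤ (2 * 10 ^ 7 + 1) * (k + 1) →
      (∃ P, IsOptimal N k P) ∧
      ∀ P, IsOptimal N k P →
        (∀ x ∈ P, -x ∈ P) ∧
        bound N k - (((N : ℝ) - 2 * ((k : ℝ) + 1)) / ((k : ℝ) + 1)) ^ 2 ≤ pairSum P ∧
        pairSum P ≤ bound N k := by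
  intro N k hN h1 h2
  obtain ⟨M, hM⟩ := hN
  obtain ⟨c, hc⟩ : ∃ c, N = 2 * (k + 1) + 2 * c := ⟨M - (k + 1), by omega⟩
  have hc2 : 2 * 10 ^ 7 * c ≤ k + 1 := by omega
  obtain ⟨hex, hanti, -⟩ := Pool.Agent.XPL.Fin3_sets Pool.Agent.XPL.all_C7 Pool.Agent.XPL.all_C9
    Pool.Agent.XPL.all_F5 (d := k + 1) (c := c) (by omega) hc2
  have hs2 : 0 < √2 := by positivity
  have hss : √2 * √2 = (2 : ℝ) := Real.mul_self_sqrt (by norm_num)
  have hk0 : (0 : ℝ) < (k : ℝ) + 1 := by positivity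
  have hbd : bound N k = √2 * Pool.Agent.XPL.Bs (N : ℝ) ((k : ℝ) + 1) / 2 := by
    unfold bound Pool.Agent.XPL.Bs
    linear_combination -((N : ℝ) / 2) * hss
  have h2R : 10 ^ 7 * (N : ℝ) ≤ (2 * 10 ^ 7 + 1) * ((k : ℝ) + 1) := by exact_mod_cast h2
  constructor
  · obtain ⟨P, hP1, hP2, hP3⟩ := hex
    refine ⟨P, ⟨by rw [hP1, hc], hP2⟩, fun Q hQ => ?_⟩
    have := hP3 Q (by rw [hQ.1, hc]) hQ.2
    unfold pairSum
    linarith
  · intro P hP
    refine ⟨?_, ?_, ?_⟩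
    · apply hanti P (by rw [hP.1.1, hc]) hP.1.2
      intro Q hQ1 hQ2
      have := hP.2 Q ⟨by rw [hQ1, hc], hQ2⟩
      unfold pairSum at this
      linarith
    · obtain ⟨Q, hQc, hQ1, -, hQv⟩ := Pool.Agent.XPL.all_F5 (k + 1) c (by omega) (by omega)
      have hNR : (N : ℝ) = 2 * ((k : ℝ) + 1) + 2 * c := by rw [hc]; push_cast; ring
      have hopt := hP.2 Q ⟨by rw [hQc, hc], hQ1⟩
      refine le_trans ?_ hopt
      push_cast at hQv
      rw [← hNR] at hQv
      unfold pairSum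
      rw [hbd]
      have h3 : ((N : ℝ) - 2 * ((k : ℝ) + 1)) / ((k : ℝ) + 1) = 2 * ((c : ℝ) / ((k : ℝ) + 1)) := by
        rw [hNR]; ring
      rw [h3]
      have h4 : 0 ≤ ((c : ℝ) / ((k : ℝ) + 1)) ^ 2 := sq_nonneg _
      have hs3 : √2 ≤ 3 / 2 := by
        apply Real.sqrt_le_iff.2
        norm_num
      nlinarith
    · obtain ⟨⟨hP1, hP2⟩, -⟩ := hP
      have hs := Pool.Agent.XPL.Tr_sum P hP2
      have hcard : Fintype.card {x // x ∈ P} = N := by rw [Pool.Agent.XPL.Tr_card, hP1]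
      have h7 := (Pool.Agent.XPL.all_C7 {x // x ∈ P} (k + 1) (fun i => (i : Pool.Agent.XPL.E (k + 1)))
        (fun i => hP2 _ i.2) (by omega) (by rw [hcard]; exact h1) (by
          rw [hcard]; push_cast
          linarith)).1
      rw [hcard] at h7
      push_cast at h7
      unfold pairSum
      rw [hbd, hs]
      have := mul_le_mul_of_nonneg_left h7 hs2.le
      linarith

end Pool.Agent.Results.MP_b22a07_co.EvenAntipodal
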