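import Pool.Agent.DSX.Final
import Pool.Agent.DSX.Transport2

set_option autoImplicit false

open Finset

namespace Pool.Agent.Results.MP_b22a07_co.OrthogonalSimplices

/-- `P` is a set of `N` points of the unit sphere `S^k` of `ℝ^{k+1}`. -/
def IsConfig (N k : ℕ) (P : Finset (EuclideanSpace ℝ (Fin (k + 1)))) : Prop :=
  P.card = N ∧ ∀ p ∈ P, ‖p‖ = 1

/-- `L(N,k,P)`: the sum of the Euclidean distances over the unordered pairs of points of `P`
(half of the sum over ordered pairs). -/
noncomputable def pairSum {k : ℕ} (P : Finset (EuclideanSpace ℝ (Fin (k + 1)))) : ℝ :=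
  (∑ p ∈ P, ∑ q ∈ P, dist p q) / 2

/-- `P` is the disjoint union of `r` classes, each of which has `m` or `m + 1` points; two distinct
points of a class with `n` points have inner product `-1/(n-1)` (so, the points being unit vectors,
a class is the vertex set of a regular simplex with `n` vertices), and points of different classes
are orthogonal. -/
def OrthogonalSimplexUnion {k : ℕ} (P : Finset (EuclideanSpace ℝ (Fin (k + 1)))) (r m : ℕ) :
    Prop :=
  ∃ κ : EuclideanSpace ℝ (Fin (k + 1)) → Fin r,
    (∀ t, (P.filter (fun p => κ p = t)).card = m ∨ (P.filter (fun p => κ p = t)).card = m + 1) ∧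
    ∀ p ∈ P, ∀ q ∈ P, p ≠ q → inner ℝ p q =
      if κ p = κ q then -(1 / (((P.filter (fun l => κ l = κ p)).card : ℝ) - 1)) else (0 : ℝ)

/-- The value: with `r = N - k - 1`, `m = ⌊N/r⌋`, `θ = N mod r`, the sum of the distances of
`θ` regular simplices with `m+1` vertices and `r-θ` regular simplices with `m` vertices, all
inscribed in unit spheres of mutually orthogonal subspaces. -/
noncomputable def value (N k : ℕ) : ℝ :=
  let r : ℕ := N - (k + 1)
  let m : ℕ := N / r
  let θ : ℕ := N % r
  ((r : ℝ) - θ) * (m * √((m : ℝ) * (m - 1) / 2)) + θ * ((m + 1) * √(((m : ℝ) + 1) * m / 2))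
    + √2 / 2 * ((N : ℝ) ^ 2 - (((r : ℝ) - θ) * (m : ℝ) ^ 2 + θ * ((m : ℝ) + 1) ^ 2))

/-- **Theorem.** For all `N, k` with `k + 1 < N ≤ 2 (k + 1)`, the maximum `L(N,k)` of the sum of
the distances of `N` points of `S^k` equals `value N k`, and an `N`-point set attains it if and only
if it is a union of `r = N-k-1` mutually orthogonal regular simplices with `⌊N/r⌋` or `⌊N/r⌋+1`
vertices each. -/
theorem result :
    ∀ N k : ℕ, k + 1 < N → N ≤ 2 * (k + 1) →
      IsGreatest {L : ℝ | ∃ P, IsConfig N k P ∧ pairSum P = L} (value N k) ∧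
      ∀ P, IsConfig N k P →
        (pairSum P = value N k ↔ OrthogonalSimplexUnion P (N - (k + 1)) (N / (N - (k + 1)))) :=
  fun N k h1 h2 => Pool.Agent.DSX.Final.full_of
    (fun _ _ _ _ h => Pool.Agent.DSX.transport2 h) N k h1 h2

end Pool.Agent.Results.MP_b22a07_co.OrthogonalSimplices
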